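import Mathlib
import Pool.Agent.Lib.helper26.Thick

set_option autoImplicit false

namespace Pool.Agent.Results.MP_df75a5_an.NotThick

open Filter

/-- upper density of E in N = {1,2,...} -/
noncomputable def upperDensity (E : Set ℕ) : ℝ :=
  limsup (fun N : ℕ => ((E ∩ Set.Icc 1 N).ncard : ℝ) / N) atTop

/-- R_f(E): the n >= 1 such that x + floor (f n) lies in E for some x in E -/
def R (f : ℝ → ℝ) (E : Set ℕ) : Set ℕ :=
  {n | 1 ≤ n ∧ ∃ x ∈ E, ∃ y ∈ E, (y : ℤ) = x + ⌊f n⌋}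

/-- S contains arbitrarily long intervals -/
def Thick (S : Set ℕ) : Prop := ∀ L : ℕ, ∃ a : ℕ, ∀ i ≤ L, a + i ∈ S

theorem result (α : ℝ) : ∃ E : Set ℕ, (∀ x ∈ E, 1 ≤ x) ∧ 0 < upperDensity E ∧
    ¬ Thick (R (fun t => t ^ (3 / 2 : ℝ)) E ∩ R (fun t => α * t ^ (3 / 2 : ℝ) + t) E) := by
  obtain ⟨E, h1, h2, L, h3⟩ := Pool.Agent.Lib.helper26.Thick.main α
  refine ⟨E, h1, h2, fun h => ?_⟩
  obtain ⟨a, ha⟩ := h L
  obtain ⟨i, hi, h4⟩ := h3 a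
  exact h4 _ (ha i hi).1.2 (ha i hi).2.2

end Pool.Agent.Results.MP_df75a5_an.NotThick
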